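import Mathlib
import Pool.Agent.H204R3.GP.Defs
import Pool.Agent.H204R3.GP.MTDefs
import Pool.Agent.H204R3.GP.MT
import Pool.Agent.H204R3.GP.MTFamilies

/-!
# The Mumford-Tate conjecture for abelian varieties with one Frobenius element in CM fields of
2-power degree with independent discriminants

Let `A` be an abelian variety over a finitely generated subfield `K` of the complex numbers, of any
dimension and with arbitrary endomorphisms.  Suppose that `A` has good reduction at ONE closed point
`v` (of a model of `K`, with residue field of `p ^ a` elements) such that the characteristic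
polynomial of the Frobenius element is the product of the minimal polynomials of Weil numbers `π i`
with the following properties.

* `F i = ℚ(π i)` is a CM field whose degree is a power of two, and the discriminants of the fields
  `F i` are independent modulo squares: no product of different ones is a square;
* the slopes of `π i` are odd (`OddSlopes`): all `N (2 s - 1)`, `s` a slope, are odd integers for some
  `N`; for instance `A` ordinary at `v`.

Then, for all primes `ℓ` not divisible by `v`, all Tate classes in the tensor powers of `H^1` (and
so in the cohomology of all powers of `A`) are linear combinations of Hodge classes, and even of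
products of Hodge classes of degree two.  Together with the theorem of Deligne (Hodge classes are
Tate classes) this is the equality of the Mumford-Tate group (over `ℚ_ℓ`) and of the connected
component of the `ℓ`-adic monodromy group: both are reductive (Faltings), so that they are determined
by their invariants in the spaces `(H^1)^{⊗ 2 m}(m)`.  So the Mumford-Tate conjecture holds for `A`
and for all motives in the tannakian category generated by `H^1(A)`.

In the Lean statement `W` is `H_1(A, ℚ)`, `T` the tangent space at the origin and `per : W → T` the
inclusion, `ω₀` is the form given by a polarization; `V` is the rational Tate module with the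
comparison map `comp : W → V`, the action `ρ` of the Galois group and the Weil pairing `ω`; `χ` is
the cyclotomic character and `γ` the Frobenius element at `v`.  The hypotheses `hss` and `hF` are the
theorems of Faltings.

The proof.  By the slopes and the hypothesis on the family, the conjugates of the Weil numbers satisfy
no multiplicative relations besides `π * conj π = q`.  So the Lie algebra of the endomorphisms of `V`
that kill all Tate classes contains a Cartan subalgebra of the symplectic Lie algebra; over a finite
extension of `ℚ_ℓ` it is a product of symplectic and general linear Lie algebras, and the first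
fundamental theorems for these show that the Tate classes are generated in degree two.
-/

namespace Pool.Agent.Results.MP_6c781a_ag.DiscriminantFrobeniusMumfordTate

open NumberField Module Pool.Agent.H204R3.GP

/-- The Mumford-Tate conjecture, if the characteristic polynomial of one element `γ` of the Galois
group is the product of the minimal polynomials of the members of such a family of Weil numbers. -/
theorem result (ℓ p : ℕ) [Fact ℓ.Prime] [Fact p.Prime] (a : ℕ) (ha : 0 < a)
    {ι : Type} [Fintype ι] (F : ι → Type) [∀ i, Field (F i)] [∀ i, NumberField (F i)]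
    [∀ i, IsCMField (F i)] (π : ∀ i, F i)
    (hπ : DiscriminantFamily p a π)
    -- the complex torus `A(ℂ)` with a polarization
    {W T : Type} [AddCommGroup W] [Module ℚ W] [AddCommGroup T] [Module ℂ T] (per : W →+ T)
    (ω₀ : W →ₗ[ℚ] W →ₗ[ℚ] ℚ) (hω₀ : IsHodgeBilinear per ω₀)
    -- the Tate module
    {V : Type} [AddCommGroup V] [Module ℚ_[ℓ] V] [FiniteDimensional ℚ_[ℓ] V] (comp : W →+ V)
    {Γ : Type} [Group Γ] (ρ : Representation ℚ_[ℓ] Γ V) (χ : Γ →* ℚ_[ℓ])
    (ω : V →ₗ[ℚ_[ℓ]] V →ₗ[ℚ_[ℓ]] ℚ_[ℓ]) (halt : ∀ v, ω v v = 0)
    (hnondeg : ∀ u, (∀ v, ω v u = 0) → u = 0)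
    (hω : ∀ s u v, ω (ρ s u) (ρ s v) = χ s * ω u v)
    (hωω : ∀ x y, ω (comp x) (comp y) = ((ω₀ x y : ℚ) : ℚ_[ℓ]))
    (hss : FiniteIndexSemisimple ρ) (hF : FaltingsEnd per comp ρ)
    (γ : Γ) (hχ : χ γ = (p : ℚ_[ℓ]) ^ a)
    (hγ : (ρ γ).charpoly = ∏ i, (minpoly ℚ (π i)).map (algebraMap ℚ ℚ_[ℓ])) :
    MumfordTateStrong per comp ρ χ := by
  have hss' : ∀ Δ : Subgroup Γ, Δ.FiniteIndex → SemiUnder (ρ '' (Δ : Set Γ)) := by
    intro Δ hΔ U hU
    obtain ⟨U', h1, h2⟩ := hss Δ hΔ U (fun s hs u hu => hU _ ⟨s, hs, rfl⟩ u hu)
    refine ⟨U', ?_, h2⟩
    rintro _ ⟨s, hs, rfl⟩ u hu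
    exact h1 s hs u hu
  have hnd' : ∀ u, (∀ v, ω u v = 0) → u = 0 := by
    intro u hu
    apply hnondeg
    intro v
    have h1 := halt (u + v)
    simp only [map_add, LinearMap.add_apply, halt, hu, zero_add, add_zero] at h1
    exact h1
  obtain ⟨L, hL1, hL2, j, h⟩ := Pool.Agent.H204R3.CM.exists_galois F
  let jp : L →ₐ[ℚ] PadicAlgCl p := IsAlgClosed.lift
  have hneat := DiscriminantFamily.neat j h ha hπ
  exact mumfordTate_of per comp ρ χ ω hnd' hω ω₀ hω₀ hωω hF fun m φ hφ => tate_of_neat ha hπ.gen
    hπ.weil j h hneat ρ χ ω halt hnondeg hω hss' γ hχ hγ φ hφ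

end Pool.Agent.Results.MP_6c781a_ag.DiscriminantFrobeniusMumfordTate
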